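import Pool.Agent.H81.NS.Defs

/-!
Row NS-Walls of the project NS (problem MP_90715c_gt): nesting of the walls.
-/

open Matrix Set Filter Topology MeasureTheory

namespace Pool.Agent.H81.NS

open Pool.Agent.H90.WC Pool.Agent.H81.TG

/-- Strong inclusion: the closure of the first set is in the interior of the second. -/
def R (X Y : Set (OnePoint ℂ)) : Prop := closure X ⊆ interior Y

/-- The homeomorphism `x ↦ g⁻¹ x`. -/
noncomputable def hom (g : G) : OnePoint ℂ ≃ₜ OnePoint ℂ where
  toFun := act g⁻¹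
  invFun := act g
  left_inv := fun x => act_act_inv g x
  right_inv := fun x => act_inv_act g x
  continuous_toFun := continuous_act g⁻¹
  continuous_invFun := continuous_act g

lemma mv_eq (g : G) (X : Set (OnePoint ℂ)) : mv g X = hom g ⁻¹' X := rfl

lemma mv_compl (g : G) (X : Set (OnePoint ℂ)) : mv g Xᶜ = (mv g X)ᶜ := rfl

lemma mv_closure (g : G) (X : Set (OnePoint ℂ)) : mv g (closure X) = closure (mv g X) := by
  rw [mv_eq, mv_eq]; exact (hom g).preimage_closure X

lemma mv_interior (g : G) (X : Set (OnePoint ℂ)) : mv g (interior X) = interior (mv g X) := by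
  rw [mv_eq, mv_eq]; exact (hom g).preimage_interior X

lemma mv_frontier (g : G) (X : Set (OnePoint ℂ)) : mv g (frontier X) = frontier (mv g X) := by
  rw [mv_eq, mv_eq]; exact (hom g).preimage_frontier X

lemma mv_mul (g h : G) (X : Set (OnePoint ℂ)) : mv (g * h) X = mv g (mv h X) := by
  ext x
  simp only [mv, mem_preimage, _root_.mul_inv_rev, act_mul]

lemma mv_subset {g : G} {X Y : Set (OnePoint ℂ)} (h : X ⊆ Y) : mv g X ⊆ mv g Y :=
  preimage_mono h

lemma mv_nonempty {g : G} {X : Set (OnePoint ℂ)} (h : X.Nonempty) : (mv g X).Nonempty := by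
  obtain ⟨x, hx⟩ := h
  refine ⟨act g x, ?_⟩
  change act g⁻¹ (act g x) ∈ X
  rw [act_inv_act]; exact hx

lemma mv_preconn {g : G} {X : Set (OnePoint ℂ)} (h : IsPreconnected X) :
    IsPreconnected (mv g X) := by
  have h1 : mv g X = act g '' X := by
    ext x
    constructor
    · intro hx
      exact ⟨act g⁻¹ x, hx, act_act_inv g x⟩
    · rintro ⟨y, hy, rfl⟩
      change act g⁻¹ (act g y) ∈ X
      rw [act_inv_act]; exact hy
  rw [h1]
  exact h.image _ (continuous_act g).continuousOn

lemma R_mv {g : G} {X Y : Set (OnePoint ℂ)} (h : R X Y) : R (mv g X) (mv g Y) := by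
  unfold R at *
  rw [← mv_closure, ← mv_interior]
  exact mv_subset h

lemma R_compl {X Y : Set (OnePoint ℂ)} (h : R X Y) : R Yᶜ Xᶜ := by
  unfold R at *
  rw [closure_compl, interior_compl]
  exact compl_subset_compl.2 h

lemma split {S A : Set (OnePoint ℂ)} (hS : IsPreconnected S) (hd : Disjoint S (frontier A)) :
    S ⊆ interior A ∨ S ⊆ (closure A)ᶜ := by
  refine hS.subset_or_subset isOpen_interior isClosed_closure.isOpen_compl ?_ ?_
  · exact (disjoint_compl_right.mono_left interior_subset_closure)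
  · intro x hx
    by_cases h1 : x ∈ interior A
    · exact Or.inl h1
    · refine Or.inr fun h2 => ?_
      exact disjoint_left.1 hd hx ⟨h2, h1⟩

/-- The basic dichotomy. -/
lemma base {Γ : Subgroup G} {K U : Set (OnePoint ℂ)} (h : Sep Γ K U) {g : G} (hg : g ∈ Γ)
    (h1 : g ≠ 1) (h2 : g ≠ -1) :
    R U (mv g U) ∨ R (mv g U) U ∨ R U (mv g U)ᶜ ∨ R Uᶜ (mv g U) := by
  have hK : IsPreconnected (mv g K) := mv_preconn h.hyp.conn.isPreconnected
  have hdis : Disjoint (mv g K) K := by
    rw [disjoint_left]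
    intro x hx hxK
    have h3 := h.hyp.wand g hg h1 h2 (act g⁻¹ x) hx
    rw [act_act_inv] at h3
    exact h3 hxK
  have hfr : frontier (mv g U) ⊆ mv g K := by
    rw [← mv_frontier]; exact mv_subset h.frk
  have hUo : interior U = U := h.op.interior_eq
  rcases split hK (hdis.mono_right h.frk) with hc | hc
  · rw [hUo] at hc
    have hd : Disjoint Uᶜ (frontier (mv g U)) :=
      (disjoint_compl_left (a := U)).mono_right (hfr.trans hc)
    rcases split h.cconn.isPreconnected hd with h3 | h3
    · right; right; right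
      unfold R
      rw [h.op.isClosed_compl.closure_eq]
      exact h3
    · right; left
      unfold R
      rw [hUo]
      exact fun x hx => by
        by_contra hxU
        exact h3 hxU hx
  · have hd : Disjoint (closure U) (frontier (mv g U)) := by
      rw [disjoint_left]
      intro x hx hxf
      exact hc (hfr hxf) hx
    rcases split h.uconn.isPreconnected.closure hd with h3 | h3
    · left; exact h3
    · right; right; left
      unfold R
      rw [interior_compl]
      exact h3

lemma Wl_true (U : Set (OnePoint ℂ)) (f : G) : Wl U f true = mv f U := rfl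

lemma Wl_false (U : Set (OnePoint ℂ)) (f : G) : Wl U f false = (mv f U)ᶜ := rfl

lemma Wl_not (U : Set (OnePoint ℂ)) (f : G) (b : Bool) : Wl U f (!b) = (Wl U f b)ᶜ := by
  cases b
  · rw [Wl_false, compl_compl]; rfl
  · rfl

theorem wall_meas (U : Set (OnePoint ℂ)) (hU : IsOpen U) (f : G) (b : Bool) :
    MeasurableSet (Wl U f b) := by
  have h1 : IsOpen (mv f U) := hU.preimage (continuous_act f⁻¹)
  cases b
  · exact h1.measurableSet.compl
  · exact h1.measurableSet

theorem wall_nest {Γ : Subgroup G} {K U : Set (OnePoint ℂ)} (h : Sep Γ K U) {f f' : G}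
    (hf : f ∈ Γ) (hf' : f' ∈ Γ) (h1 : f' ≠ f) (h2 : f' ≠ -f) (b b' : Bool) :
    R (Wl U f b) (Wl U f' b') ∨ R (Wl U f' b') (Wl U f b) ∨
      R (Wl U f b) (Wl U f' b')ᶜ ∨ R (Wl U f b)ᶜ (Wl U f' b') := by
  have hg : f⁻¹ * f' ∈ Γ := Γ.mul_mem (Γ.inv_mem hf) hf'
  have hg1 : f⁻¹ * f' ≠ 1 := by
    intro h3
    exact h1 (inv_mul_eq_one.1 h3).symm
  have hg2 : f⁻¹ * f' ≠ -1 := by
    intro h3
    apply h2
    have h4 : f' = f * (f⁻¹ * f') := by rw [mul_inv_cancel_left]
    rw [h4, h3, mul_neg, mul_one]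
  have hb := base h hg hg1 hg2
  have h5 : mv f (mv (f⁻¹ * f') U) = mv f' U := by
    rw [← mv_mul, mul_inv_cancel_left]
  have hb' : R (mv f U) (mv f' U) ∨ R (mv f' U) (mv f U) ∨ R (mv f U) (mv f' U)ᶜ ∨
      R (mv f U)ᶜ (mv f' U) := by
    rw [← h5]
    rcases hb with h6 | h6 | h6 | h6
    · exact Or.inl (R_mv h6)
    · exact Or.inr (Or.inl (R_mv h6))
    · exact Or.inr (Or.inr (Or.inl (R_mv h6)))
    · exact Or.inr (Or.inr (Or.inr (R_mv h6)))
  cases b <;> cases b' <;> simp only [Wl_true, Wl_false, compl_compl]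
  · rcases hb' with h6 | h6 | h6 | h6
    · exact Or.inr (Or.inl (R_compl h6))
    · exact Or.inl (R_compl h6)
    · exact Or.inr (Or.inr (Or.inr h6))
    · exact Or.inr (Or.inr (Or.inl h6))
  · rcases hb' with h6 | h6 | h6 | h6
    · exact Or.inr (Or.inr (Or.inr h6))
    · exact Or.inr (Or.inr (Or.inl (R_compl h6)))
    · refine Or.inr (Or.inl ?_)
      have h7 := R_compl h6
      rwa [compl_compl] at h7
    · exact Or.inl h6
  · rcases hb' with h6 | h6 | h6 | h6
    · exact Or.inr (Or.inr (Or.inl h6))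
    · exact Or.inr (Or.inr (Or.inr (R_compl h6)))
    · exact Or.inl h6
    · refine Or.inr (Or.inl ?_)
      have h7 := R_compl h6
      rwa [compl_compl] at h7
  · exact hb'

lemma frontier_Wl (U : Set (OnePoint ℂ)) (f : G) (b : Bool) :
    frontier (Wl U f b) = mv f (frontier U) := by
  cases b
  · rw [Wl_false, frontier_compl, mv_frontier]
  · rw [Wl_true, mv_frontier]

theorem wall_nbhd {Γ : Subgroup G} {K U : Set (OnePoint ℂ)} (h : Sep Γ K U) (f : G) (b : Bool)
    {x : OnePoint ℂ} (hx : x ∉ mv f K) :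
    x ∈ interior (Wl U f b) ∨ x ∈ interior (Wl U f b)ᶜ := by
  by_contra hcon
  rw [not_or, interior_compl] at hcon
  have h1 : x ∈ frontier (Wl U f b) := ⟨not_not.1 hcon.2, hcon.1⟩
  rw [frontier_Wl] at h1
  exact hx (mv_subset h.frk h1)

theorem wall_int {Γ : Subgroup G} {K U : Set (OnePoint ℂ)} (h : Sep Γ K U) (f : G) (b : Bool) :
    (interior (Wl U f b)).Nonempty := by
  cases b
  · rw [Wl_false, ← mv_compl, ← mv_interior]
    exact mv_nonempty h.ci
  · rw [Wl_true, ← mv_interior, h.op.interior_eq]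
    exact mv_nonempty h.uconn.nonempty

theorem wall_gap {Γ : Subgroup G} {K U : Set (OnePoint ℂ)} (h : Sep Γ K U) (f f' : G)
    (b b' : Bool) (hR : R (Wl U f b) (Wl U f' b')) :
    (interior (Wl U f' b') \ closure (Wl U f b)).Nonempty := by
  by_contra hcon
  rw [not_nonempty_iff_eq_empty, Set.sdiff_eq_empty] at hcon
  have he : closure (Wl U f b) = interior (Wl U f' b') := Subset.antisymm hR hcon
  have hcl : IsClopen (closure (Wl U f b)) := ⟨isClosed_closure, by rw [he]; exact isOpen_interior⟩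
  rcases isClopen_iff.1 hcl with h1 | h1
  · obtain ⟨x, hx⟩ := wall_int h f b
    have h2 : x ∈ closure (Wl U f b) := subset_closure (interior_subset hx)
    rw [h1] at h2
    exact h2
  · obtain ⟨x, hx⟩ := wall_int h f' (!b')
    rw [Wl_not] at hx
    have h2 : x ∈ interior (Wl U f' b') := by rw [← he, h1]; exact mem_univ x
    exact interior_subset hx (interior_subset h2)

end Pool.Agent.H81.NS
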