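import Pool.Agent.H81.NS.Defs

/-!
A wandering continuum which separates the sphere has a complementary component with connected
complement (problem MP_90715c_gt, NoSeparation).
-/

open Matrix Set Filter Topology MeasureTheory

namespace Pool.Agent.H81.NS

open Pool.Agent.H90.WC Pool.Agent.H81.TG

/-- The inversion `z ↦ -1 / z`. -/
def cmS : G := ⟨!![0, -1; 1, 0], by rw [Matrix.det_fin_two_of]; ring⟩

theorem cmS_zero : act cmS ((0 : ℂ) : OnePoint ℂ) = OnePoint.infty := by
  refine act_coe_of_eq ?_
  show (1 : ℂ) * 0 + 0 = 0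
  ring

theorem cm_base (z : ℂ) (U : Set (OnePoint ℂ)) (hU : U ∈ 𝓝 (z : OnePoint ℂ)) :
    ∃ V ⊆ U, IsOpen V ∧ (z : OnePoint ℂ) ∈ V ∧ IsConnected V := by
  have h1 : ((↑) : ℂ → OnePoint ℂ) ⁻¹' U ∈ 𝓝 z := OnePoint.continuous_coe.continuousAt hU
  obtain ⟨ε, hε, hb⟩ := Metric.mem_nhds_iff.1 h1
  refine ⟨((↑) : ℂ → OnePoint ℂ) '' Metric.ball z ε, image_subset_iff.2 hb,
    OnePoint.isOpenEmbedding_coe.isOpenMap _ Metric.isOpen_ball,
    ⟨z, Metric.mem_ball_self hε, rfl⟩, ⟨⟨z, z, Metric.mem_ball_self hε, rfl⟩, ?_⟩⟩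
  exact (convex_ball z ε).isPreconnected.image _ OnePoint.continuous_coe.continuousOn

instance cm_loc : LocallyConnectedSpace (OnePoint ℂ) := by
  rw [locallyConnectedSpace_iff_subsets_isOpen_isConnected]
  intro x U hU
  induction x using OnePoint.rec with
  | coe z => exact cm_base z U hU
  | infty =>
    have h1 : act cmS ⁻¹' U ∈ 𝓝 ((0 : ℂ) : OnePoint ℂ) := by
      refine (continuous_act cmS).continuousAt ?_
      rw [cmS_zero]
      exact hU
    obtain ⟨V, hVU, hVo, h0, hVc⟩ := cm_base 0 _ h1
    refine ⟨act cmS '' V, image_subset_iff.2 hVU, ?_, ⟨_, h0, cmS_zero⟩,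
      hVc.image _ (continuous_act cmS).continuousOn⟩
    have : act cmS '' V = act cmS⁻¹ ⁻¹' V := by
      ext y
      constructor
      · rintro ⟨v, hv, rfl⟩
        show act cmS⁻¹ (act cmS v) ∈ V
        rw [act_inv_act]
        exact hv
      · intro hy
        exact ⟨act cmS⁻¹ y, hy, act_act_inv _ _⟩
    rw [this]
    exact hVo.preimage (continuous_act _)

/-- A complementary component of a wandering continuum which separates the sphere. -/
theorem exists_sep {Γ : Subgroup G} {K : Set (OnePoint ℂ)} (h : Hyp Γ K)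
    (hn : ¬ IsPreconnected Kᶜ) : ∃ U, Sep Γ K U := by
  have hKo : IsOpen Kᶜ := h.cpt.isClosed.isOpen_compl
  obtain ⟨x, hx⟩ : (Kᶜ).Nonempty := by
    rw [nonempty_iff_ne_empty]
    intro h0
    exact hn (h0 ▸ isPreconnected_empty)
  obtain ⟨y, hy, hyU⟩ : ∃ y ∈ Kᶜ, y ∉ connectedComponentIn Kᶜ x := by
    by_contra hc
    push Not at hc
    refine hn ?_
    have : connectedComponentIn Kᶜ x = Kᶜ :=
      Subset.antisymm (connectedComponentIn_subset _ _) hc
    rw [← this]
    exact isPreconnected_connectedComponentIn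
  have hdis : ∀ z, z ∉ connectedComponentIn Kᶜ x →
      connectedComponentIn Kᶜ z ⊆ (connectedComponentIn Kᶜ x)ᶜ := by
    intro z hz w hw hw'
    have e1 := connectedComponentIn_eq hw
    have e2 := connectedComponentIn_eq hw'
    refine hz ?_
    rw [e2, ← e1]
    refine mem_connectedComponentIn ?_
    by_contra hzK
    rw [connectedComponentIn_eq_empty hzK] at hw
    exact hw
  have hUK : K ⊆ (connectedComponentIn Kᶜ x)ᶜ := fun z hz hz' =>
    connectedComponentIn_subset _ _ hz' hz
  have hUo : IsOpen (connectedComponentIn Kᶜ x) := hKo.connectedComponentIn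
  obtain ⟨k, hk⟩ := h.conn.nonempty
  refine ⟨connectedComponentIn Kᶜ x, h, hUo, isConnected_connectedComponentIn_iff.2 hx,
    ⟨⟨k, hUK hk⟩, ?_⟩, ?_, ?_⟩
  · -- the complement is connected
    have hcov : (connectedComponentIn Kᶜ x)ᶜ = ⋃₀ ((fun z =>
        K ∪ closure (connectedComponentIn Kᶜ z)) '' (connectedComponentIn Kᶜ x)ᶜ) := by
      refine Subset.antisymm (fun z hz => ?_) (sUnion_subset ?_)
      · refine ⟨_, ⟨z, hz, rfl⟩, ?_⟩
        by_cases hzK : z ∈ K
        · exact Or.inl hzK
        · exact Or.inr (subset_closure (mem_connectedComponentIn hzK))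
      · rintro _ ⟨z, hz, rfl⟩
        exact union_subset hUK (closure_minimal (hdis z hz) hUo.isClosed_compl)
    rw [hcov]
    refine isPreconnected_sUnion k _ ?_ ?_
    · rintro _ ⟨z, _, rfl⟩
      exact Or.inl hk
    · rintro _ ⟨z, _, rfl⟩
      show IsPreconnected (K ∪ closure (connectedComponentIn Kᶜ z))
      by_cases hzK : z ∈ K
      · rw [connectedComponentIn_eq_empty (by simpa using hzK), closure_empty, union_empty]
        exact h.conn.isPreconnected
      · have hcl : IsPreconnected (closure (connectedComponentIn Kᶜ z)) :=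
          isPreconnected_connectedComponentIn.closure
        refine IsPreconnected.union' ?_ h.conn.isPreconnected hcl
        by_contra hem
        have hsub : closure (connectedComponentIn Kᶜ z) ⊆ Kᶜ := fun w hw hw' =>
          hem ⟨w, hw', hw⟩
        have hsub2 : closure (connectedComponentIn Kᶜ z) ⊆ connectedComponentIn Kᶜ z :=
          hcl.subset_connectedComponentIn (subset_closure (mem_connectedComponentIn hzK)) hsub
        have hclopen : IsClopen (connectedComponentIn Kᶜ z) :=
          ⟨isClosed_of_closure_subset hsub2, hKo.connectedComponentIn⟩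
        have huniv := hclopen.eq_univ ⟨z, mem_connectedComponentIn hzK⟩
        have : k ∈ connectedComponentIn Kᶜ z := huniv ▸ mem_univ k
        exact connectedComponentIn_subset _ _ this hk
  · -- the frontier
    intro z hz
    by_contra hzK
    have hVo : IsOpen (connectedComponentIn Kᶜ z) := hKo.connectedComponentIn
    have hzV : z ∈ connectedComponentIn Kᶜ z := mem_connectedComponentIn hzK
    obtain ⟨w, hw1, hw2⟩ := mem_closure_iff.1 hz.1 _ hVo hzV
    have e : z ∈ connectedComponentIn Kᶜ x := by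
      by_contra hzU
      exact hdis z hzU hw1 hw2
    exact hz.2 (by rwa [hUo.interior_eq])
  · exact ⟨y, mem_interior.2 ⟨connectedComponentIn Kᶜ y, hdis y hyU, hKo.connectedComponentIn,
      mem_connectedComponentIn hy⟩⟩

end Pool.Agent.H81.NS
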