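import Pool.Agent.H81.NS.Prob

/-!
Change of variables for the spherical measure (problem MP_90715c_gt).
-/

open Matrix Set Filter Topology MeasureTheory

namespace Pool.Agent.H81.NS

open Pool.Agent.H90.WC Pool.Agent.H81.TG

lemma measurable_coe' : Measurable ((↑) : ℂ → OnePoint ℂ) :=
  OnePoint.continuous_coe.measurable

/-- The set of the finite points where the denominator does not vanish. -/
lemma sub_pole (h : G) : {z : ℂ | h 1 0 * z + h 1 1 = 0}.Subsingleton := by
  have hdet := det_eq h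
  intro z hz w hw
  simp only [Set.mem_ofPred_eq] at hz hw
  by_cases hc : h 1 0 = 0
  · rw [hc, zero_mul, zero_add] at hz
    rw [hc, hz, mul_zero, mul_zero, sub_zero] at hdet
    exact absurd hdet zero_ne_one
  · exact mul_left_cancel₀ hc (add_right_cancel (hz.trans hw.symm))

lemma hasDerivAt_mob {h : G} {z : ℂ} (hz : h 1 0 * z + h 1 1 ≠ 0) :
    HasDerivAt (mob h) (((h 1 0 * z + h 1 1) ^ 2)⁻¹) z := by
  have h1 : HasDerivAt (fun z => h 0 0 * z + h 0 1) (h 0 0) z := by
    simpa using ((hasDerivAt_id z).const_mul (h 0 0)).add_const (h 0 1)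
  have h2 : HasDerivAt (fun z => h 1 0 * z + h 1 1) (h 1 0) z := by
    simpa using ((hasDerivAt_id z).const_mul (h 1 0)).add_const (h 1 1)
  have h3 := h1.div h2 hz
  have hdet := det_eq h
  have e : (h 0 0 * (h 1 0 * z + h 1 1) - (h 0 0 * z + h 0 1) * h 1 0) = 1 := by
    linear_combination hdet
  rw [e, one_div] at h3
  exact h3

lemma det_real_mul (c : ℂ) :
    ((ContinuousLinearMap.toSpanSingleton ℂ c).restrictScalars ℝ).det = ‖c‖ ^ 2 := by
  rw [← Complex.normSq_eq_norm_sq]
  simp [ContinuousLinearMap.det, LinearMap.det_restrictScalars, Algebra.norm_complex_apply]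

theorem cov : StCov := by
  intro g X hX
  obtain ⟨h, hh⟩ : ∃ h : G, h = g⁻¹ := ⟨_, rfl⟩
  rw [← hh]
  have hgm : MeasurableSet (act g ⁻¹' X) := (continuous_act g).measurable hX
  rw [mu0_apply hgm]
  set c : ℂ → OnePoint ℂ := ((↑) : ℂ → OnePoint ℂ) with hc
  set s : Set ℂ := c ⁻¹' X ∩ {z : ℂ | h 1 0 * z + h 1 1 = 0}ᶜ with hs
  have hpm : MeasurableSet {z : ℂ | h 1 0 * z + h 1 1 = 0} := (sub_pole h).measurableSet
  have hsm : MeasurableSet s := (measurable_coe' hX).inter hpm.compl
  have hne : ∀ z ∈ s, h 1 0 * z + h 1 1 ≠ 0 := fun z hz => hz.2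
  have hact : ∀ z ∈ s, act h (c z) = c (mob h z) := fun z hz => act_coe_of_ne (hne z hz)
  have hgh : ∀ x, act g (act h x) = x := fun x => by rw [hh, act_act_inv]
  have hhg : ∀ x, act h (act g x) = x := fun x => by rw [hh, act_inv_act]
  have hinj : InjOn (mob h) s := by
    intro z hz w hw e
    have e1 : act h (c z) = act h (c w) := by rw [hact z hz, hact w hw, e]
    have e2 : c z = c w := by rw [← hgh (c z), e1, hgh]
    exact OnePoint.coe_injective e2
  have hf' : ∀ z ∈ s, HasFDerivWithinAt (mob h)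
      ((ContinuousLinearMap.toSpanSingleton ℂ (((h 1 0 * z + h 1 1) ^ 2)⁻¹)).restrictScalars ℝ)
      s z := by
    intro z hz
    exact ((hasDerivAt_mob (hne z hz)).hasFDerivAt.restrictScalars ℝ).hasFDerivWithinAt
  have key := lintegral_image_eq_lintegral_abs_det_fderiv_mul (volume : Measure ℂ) hsm hf' hinj
    (fun w => ENNReal.ofReal (den w))
  have himg : c ⁻¹' (act g ⁻¹' X) =ᵐ[volume] mob h '' s := by
    have h1 : mob h '' s ⊆ c ⁻¹' (act g ⁻¹' X) := by
      rintro _ ⟨z, hz, rfl⟩
      show act g (c (mob h z)) ∈ X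
      rw [← hact z hz, hgh]
      exact hz.1
    have h2 : c ⁻¹' (act g ⁻¹' X) ⊆ mob h '' s ∪ {w : ℂ | g 1 0 * w + g 1 1 = 0} := by
      intro w hw
      by_cases hp : g 1 0 * w + g 1 1 = 0
      · exact Or.inr hp
      · refine Or.inl ⟨mob g w, ?_, ?_⟩
        · have e1 : act g (c w) = c (mob g w) := act_coe_of_ne hp
          have hw' : act g (c w) ∈ X := hw
          refine ⟨by rw [e1] at hw'; exact hw', fun h0 => ?_⟩
          have e2 : act h (c (mob g w)) = OnePoint.infty := act_coe_of_eq h0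
          rw [← e1, hhg] at e2
          exact OnePoint.coe_ne_infty w e2
        · have e1 : act g (c w) = c (mob g w) := act_coe_of_ne hp
          have h0 : h 1 0 * mob g w + h 1 1 ≠ 0 := by
            intro h0
            have e2 : act h (c (mob g w)) = OnePoint.infty := act_coe_of_eq h0
            rw [← e1, hhg] at e2
            exact OnePoint.coe_ne_infty w e2
          have e2 : act h (c (mob g w)) = c (mob h (mob g w)) := act_coe_of_ne h0
          rw [← e1, hhg] at e2
          exact (OnePoint.coe_injective e2).symm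
    have h3 : (volume : Measure ℂ) {w : ℂ | g 1 0 * w + g 1 1 = 0} = 0 :=
      (sub_pole g).measure_zero _
    refine Filter.EventuallyLE.antisymm ?_ h1.eventuallyLE
    refine h2.eventuallyLE.trans ?_
    exact (union_ae_eq_left_of_ae_eq_empty (ae_eq_empty.2 h3)).le
  rw [setLIntegral_congr himg, key]
  have hsX : s =ᵐ[volume] c ⁻¹' X := by
    have h3 : (volume : Measure ℂ) {z : ℂ | h 1 0 * z + h 1 1 = 0} = 0 :=
      (sub_pole h).measure_zero _
    exact sdiff_null_ae_eq_self h3
  rw [← setLIntegral_congr hsX]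
  refine setLIntegral_congr_fun hsm fun z hz => ?_
  have hz0 := hne z hz
  have hz1 : ‖h 1 0 * z + h 1 1‖ ≠ 0 := norm_ne_zero_iff.2 hz0
  show ENNReal.ofReal |_| * ENNReal.ofReal (den (mob h z)) = _
  rw [← ENNReal.ofReal_mul (abs_nonneg _), det_real_mul]
  congr 1
  unfold den qf mob
  rw [abs_of_nonneg (by positivity), norm_inv, norm_pow, norm_div]
  have h5 : (‖h 0 0 * z + h 0 1‖ / ‖h 1 0 * z + h 1 1‖) ^ 2 =
      ‖h 0 0 * z + h 0 1‖ ^ 2 / ‖h 1 0 * z + h 1 1‖ ^ 2 := div_pow _ _ _
  rw [h5]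
  have h6 : 0 < ‖h 1 0 * z + h 1 1‖ := norm_pos_iff.2 hz0
  field_simp
  ring

end Pool.Agent.H81.NS
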