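import Pool.Agent.H81.NS.Defs

/-!
Open sets have positive measure; density points (problem MP_90715c_gt, NoSeparation).
-/

open Matrix Set Filter Topology MeasureTheory

namespace Pool.Agent.H81.NS

open Pool.Agent.H90.WC Pool.Agent.H81.TG

namespace Dens

lemma measurable_coe' : Measurable ((↑) : ℂ → OnePoint ℂ) :=
  OnePoint.continuous_coe.measurable

lemma den_pos (z : ℂ) : 0 < den z := by
  unfold den
  positivity

lemma den_le_one (z : ℂ) : den z ≤ 1 := by
  unfold den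
  have h : 1 ≤ (1 + ‖z‖ ^ 2) ^ 2 := by
    have := sq_nonneg ‖z‖
    nlinarith
  exact inv_le_one_of_one_le₀ h

/-- The measure in the plane. -/
noncomputable def nu : Measure ℂ :=
  (volume : Measure ℂ).withDensity fun z => ENNReal.ofReal (den z)

lemma mu0_apply {X : Set (OnePoint ℂ)} (hX : MeasurableSet X) :
    mu0 X = nu (((↑) : ℂ → OnePoint ℂ) ⁻¹' X) := by
  unfold mu0
  rw [Measure.map_apply measurable_coe' hX]
  rfl

lemma nu_univ : nu univ = mu0 univ := by
  rw [mu0_apply MeasurableSet.univ, preimage_univ]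

lemma nu_le (S : Set ℂ) : nu S ≤ volume S := by
  have h : nu ≤ (volume : Measure ℂ) := by
    unfold nu
    refine (withDensity_mono (Eventually.of_forall fun z => ?_)).trans
      (withDensity_one (μ := (volume : Measure ℂ))).le
    simp only [Pi.one_apply]
    rw [← ENNReal.ofReal_one]
    exact ENNReal.ofReal_le_ofReal (den_le_one z)
  exact h S

lemma nu_pos {S : Set ℂ} (hS : 0 < volume S) : 0 < nu S := by
  rw [pos_iff_ne_zero]
  intro h0
  have hm : Measurable fun z : ℂ => ENNReal.ofReal (den z) := by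
    unfold den
    fun_prop
  have h1 : (volume : Measure ℂ) ≪ nu := by
    refine withDensity_absolutelyContinuous' hm.aemeasurable
      (Eventually.of_forall fun z => ?_)
    exact (ENNReal.ofReal_pos.2 (den_pos z)).ne'
  exact hS.ne' (h1 h0)

lemma mu_apply (X : Set (OnePoint ℂ)) : mu X = (mu0 univ)⁻¹ * mu0 X := by
  unfold mu
  simp [Measure.smul_apply]

lemma mu_ne_top (h0 : mu0 univ ≠ 0) (h1 : mu0 univ ≠ ⊤) (X : Set (OnePoint ℂ)) : mu X ≠ ⊤ := by
  rw [mu_apply]
  exact ENNReal.mul_ne_top (ENNReal.inv_ne_top.2 h0)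
    (ne_top_of_le_ne_top h1 (measure_mono (subset_univ _)))

lemma act_one_pre (X : Set (OnePoint ℂ)) : act 1 ⁻¹' X = X := by
  ext x
  simp

/-- Scaling. -/
lemma vol_affine (z : ℂ) {r : ℝ} (hr : 0 < r) (S : Set ℂ) :
    volume {w : ℂ | (r : ℂ) * w + z ∈ S} = ENNReal.ofReal |(r ^ 2)⁻¹| * volume S := by
  have e : {w : ℂ | (r : ℂ) * w + z ∈ S} = (fun w : ℂ => r • w) ⁻¹' ((fun w => w + z) ⁻¹' S) := by
    ext w
    simp [Complex.real_smul]
  rw [e, Measure.addHaar_preimage_smul _ hr.ne', measure_preimage_add_right,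
    Complex.finrank_real_complex]

/-- The mass outside of large discs is small. -/
lemma tail (h1 : mu0 univ ≠ ⊤) {ε : ENNReal} (hε : 0 < ε) :
    ∃ R : ℕ, 0 < R ∧ nu {w : ℂ | (R : ℝ) < ‖w‖} ≤ ε := by
  have hf : ∀ n : ℕ, nu {w : ℂ | (n : ℝ) < ‖w‖} ≠ ⊤ := fun n =>
    ne_top_of_le_ne_top h1 ((measure_mono (subset_univ _)).trans nu_univ.le)
  have hms : ∀ n : ℕ, NullMeasurableSet {w : ℂ | (n : ℝ) < ‖w‖} nu := fun n =>
    (measurableSet_lt measurable_const measurable_norm).nullMeasurableSet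
  have ht := tendsto_measure_iInter_atTop (μ := nu) (s := fun n : ℕ => {w : ℂ | (n : ℝ) < ‖w‖})
    hms (fun m n hmn w (hw : (n : ℝ) < ‖w‖) =>
      (lt_of_le_of_lt (Nat.cast_le.2 hmn) hw : (m : ℝ) < ‖w‖)) ⟨0, hf 0⟩
  have he : ⋂ n : ℕ, {w : ℂ | (n : ℝ) < ‖w‖} = ∅ := by
    ext w
    simp only [mem_iInter, Set.mem_ofPred_eq, mem_empty_iff_false, iff_false, not_forall, not_lt]
    exact exists_nat_ge ‖w‖
  rw [he, measure_empty] at ht
  have := (ht.eventually (gt_mem_nhds hε)).and (eventually_gt_atTop 0)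
  obtain ⟨R, hR1, hR2⟩ := this.exists
  exact ⟨R, hR2, hR1.le⟩

end Dens

open Dens

/-- Open sets have positive measure. -/
theorem pos_of (h0 : mu0 univ ≠ 0) (h1 : mu0 univ ≠ ⊤) :
    ∀ O : Set (OnePoint ℂ), IsOpen O → O.Nonempty → 0 < lam 1 O := by
  intro O hO hne
  unfold lam
  rw [act_one_pre]
  refine ENNReal.toReal_pos ?_ (mu_ne_top h0 h1 O)
  rw [mu_apply]
  refine mul_ne_zero (ENNReal.inv_ne_zero.2 h1) ?_
  rw [mu0_apply hO.measurableSet]
  refine (nu_pos ?_).ne'
  refine (hO.preimage OnePoint.continuous_coe).measure_pos _ ?_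
  obtain ⟨w, hw⟩ := OnePoint.denseRange_coe.exists_mem_open hO hne
  exact ⟨w, hw⟩

/-- Density points. -/
theorem dens_of (h0 : mu0 univ ≠ 0) (h1 : mu0 univ ≠ ⊤) :
    ∀ E, MeasurableSet E → 0 < lam 1 E → ∃ a : ℂ, ∀ C ε : ℝ, 0 < C → 0 < ε → ∃ r₀ > (0 : ℝ),
      ∀ (z : ℂ) (r : ℝ), 0 < r → r < r₀ → ‖z - a‖ ≤ C * r → lam (tf z r) Eᶜ ≤ ε := by
  intro E hE hpos
  set E' : Set ℂ := ((↑) : ℂ → OnePoint ℂ) ⁻¹' E with hE'
  have hE'm : MeasurableSet E' := measurable_coe' hE
  have hvol : volume E' ≠ 0 := by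
    intro hz
    have : mu0 E = 0 := by
      rw [mu0_apply hE]
      exact nonpos_iff_eq_zero.1 ((nu_le _).trans hz.le)
    unfold lam at hpos
    rw [act_one_pre, mu_apply, this, mul_zero, ENNReal.toReal_zero] at hpos
    exact lt_irrefl _ hpos
  have hae : ∀ᵐ x ∂((volume : Measure ℂ).restrict E'), ∀ K : ℕ,
      ∀ {ι : Type} {l : Filter ι} (w : ι → ℂ) (δ : ι → ℝ) (_ : Tendsto δ l (𝓝[>] 0))
        (_ : ∀ᶠ j in l, x ∈ Metric.closedBall (w j) ((K : ℝ) * δ j)),
        Tendsto (fun j => volume (E' ∩ Metric.closedBall (w j) (δ j)) /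
          volume (Metric.closedBall (w j) (δ j))) l (𝓝 1) := by
    rw [ae_all_iff]
    intro K
    exact IsUnifLocDoublingMeasure.ae_tendsto_measure_inter_div (volume : Measure ℂ) E' (K : ℝ)
  have : (ae ((volume : Measure ℂ).restrict E')).NeBot := by
    rw [ae_neBot]
    intro h
    exact hvol (Measure.restrict_eq_zero.1 h)
  obtain ⟨a, ha⟩ := hae.exists
  refine ⟨a, fun C ε hC hε => ?_⟩
  set m := mu0 univ with hm
  set ε' : ENNReal := ENNReal.ofReal ε * m with hε'
  have hε'0 : 0 < ε' := ENNReal.mul_pos (ENNReal.ofReal_pos.2 hε).ne' h0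
  have hε't : ε' ≠ ⊤ := ENNReal.mul_ne_top ENNReal.ofReal_ne_top h1
  have hε2 : 0 < ε' / 2 := ENNReal.half_pos hε'0.ne'
  obtain ⟨R, hR0, hR⟩ := tail h1 hε2
  have hR0' : (0 : ℝ) < R := Nat.cast_pos.2 hR0
  have hR1 : (1 : ℝ) ≤ R := by exact_mod_cast hR0
  set c0 : ENNReal := volume (Metric.closedBall (0 : ℂ) (R : ℝ)) with hc0
  have hc0p : c0 ≠ 0 := (Metric.measure_closedBall_pos _ _ hR0').ne'
  have hc0t : c0 ≠ ⊤ := measure_closedBall_lt_top.ne
  set s : ENNReal := min 1 (ε' / 2 / c0) with hs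
  have hs1 : s ≤ 1 := min_le_left _ _
  have hs0 : 0 < s := by
    rw [hs, lt_min_iff]
    exact ⟨one_pos, ENNReal.div_pos hε2.ne' hc0t⟩
  have hsc : s * c0 ≤ ε' / 2 := by
    calc s * c0 ≤ (ε' / 2 / c0) * c0 := by gcongr; exact min_le_right _ _
      _ = ε' / 2 := ENNReal.div_mul_cancel hc0p hc0t
  have ht1 : 1 - s < 1 := ENNReal.sub_lt_self ENNReal.one_ne_top one_ne_zero hs0.ne'
  obtain ⟨K, hK⟩ := exists_nat_ge C
  -- the key estimate
  have key : ∀ (z : ℂ) (r : ℝ), 0 < r →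
      1 - s < volume (E' ∩ Metric.closedBall z (R * r)) / volume (Metric.closedBall z (R * r)) →
      lam (tf z r) Eᶜ ≤ ε := by
    intro z r hr hq
    set B := Metric.closedBall z (R * r) with hB
    have hbp : volume B ≠ 0 := (Metric.measure_closedBall_pos _ _ (mul_pos hR0' hr)).ne'
    have hbt : volume B ≠ ⊤ := measure_closedBall_lt_top.ne
    have hq1 : (1 - s) * volume B ≤ volume (E' ∩ B) := by
      have := (ENNReal.lt_div_iff_mul_lt (Or.inl hbp) (Or.inl hbt)).1 hq
      exact this.le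
    have hd : volume (B \ E') ≤ s * volume B := by
      have e1 : volume (B ∩ E') + volume (B \ E') = volume B := measure_inter_add_sdiff B hE'm
      have e2 : volume (B \ E') = volume B - volume (B ∩ E') := by
        refine ENNReal.eq_sub_of_add_eq ?_ ?_
        · exact ne_top_of_le_ne_top hbt (measure_mono inter_subset_left)
        · rw [add_comm]; exact e1
      rw [e2, inter_comm B E']
      calc volume B - volume (E' ∩ B) ≤ volume B - (1 - s) * volume B := tsub_le_tsub_left hq1 _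
        _ ≤ s * volume B := by
            rw [tsub_le_iff_right, ← add_mul, add_tsub_cancel_of_le hs1, one_mul]
    have hA : volume {w : ℂ | (r : ℂ) * w + z ∈ B \ E'} ≤ ε' / 2 := by
      rw [vol_affine z hr]
      have e3 : volume (Metric.closedBall (0 : ℂ) (R : ℝ))
          = ENNReal.ofReal |(r ^ 2)⁻¹| * volume B := by
        rw [← vol_affine z hr]
        congr 1
        ext w
        rw [hB, Set.mem_ofPred_eq, Metric.mem_closedBall, Metric.mem_closedBall, dist_zero_right,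
          dist_eq_norm, add_sub_cancel_right, norm_mul, Complex.norm_real, Real.norm_eq_abs,
          abs_of_pos hr, mul_comm r]
        exact (mul_le_mul_iff_left₀ hr).symm
      calc ENNReal.ofReal |(r ^ 2)⁻¹| * volume (B \ E')
          ≤ ENNReal.ofReal |(r ^ 2)⁻¹| * (s * volume B) := by gcongr
        _ = s * c0 := by rw [hc0, e3]; ring
        _ ≤ ε' / 2 := hsc
    have hmu0 : mu0 (act (tf z r) ⁻¹' Eᶜ) ≤ ε' := by
      have hmeas : MeasurableSet (act (tf z r) ⁻¹' Eᶜ) :=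
        (continuous_act (tf z r)).measurable hE.compl
      rw [mu0_apply hmeas]
      have hsub : ((↑) : ℂ → OnePoint ℂ) ⁻¹' (act (tf z r) ⁻¹' Eᶜ) ⊆
          {w : ℂ | (R : ℝ) < ‖w‖} ∪ {w : ℂ | (r : ℂ) * w + z ∈ B \ E'} := by
        intro w hw
        by_cases hw1 : (R : ℝ) < ‖w‖
        · exact Or.inl hw1
        · right
          have hw2 : act (tf z r) (w : OnePoint ℂ) ∉ E := hw
          have htf : tf z r = fr z r hr := dif_pos hr
          rw [htf, act_fr] at hw2
          refine ⟨?_, hw2⟩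
          rw [hB, Metric.mem_closedBall, dist_eq_norm, add_sub_cancel_right, norm_mul,
            Complex.norm_real, Real.norm_eq_abs, abs_of_pos hr, mul_comm]
          exact mul_le_mul_of_nonneg_right (not_lt.1 hw1) hr.le
      calc nu (((↑) : ℂ → OnePoint ℂ) ⁻¹' (act (tf z r) ⁻¹' Eᶜ))
          ≤ nu ({w : ℂ | (R : ℝ) < ‖w‖} ∪ {w : ℂ | (r : ℂ) * w + z ∈ B \ E'}) :=
            measure_mono hsub
        _ ≤ nu {w : ℂ | (R : ℝ) < ‖w‖} + nu {w : ℂ | (r : ℂ) * w + z ∈ B \ E'} :=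
            measure_union_le _ _
        _ ≤ ε' / 2 + ε' / 2 := add_le_add hR ((nu_le _).trans hA)
        _ = ε' := ENNReal.add_halves ε'
    unfold lam
    refine ENNReal.toReal_le_of_le_ofReal hε.le ?_
    rw [mu_apply]
    calc (mu0 univ)⁻¹ * mu0 (act (tf z r) ⁻¹' Eᶜ) ≤ (mu0 univ)⁻¹ * ε' := by gcongr
      _ = ENNReal.ofReal ε := by
          rw [hε', hm, mul_comm (ENNReal.ofReal ε), ← mul_assoc, ENNReal.inv_mul_cancel h0 h1,
            one_mul]
  by_contra hcon
  push Not at hcon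
  have hsel : ∀ n : ℕ, ∃ (z : ℂ) (r : ℝ), 0 < r ∧ r < 1 / ((n : ℝ) + 1) ∧ ‖z - a‖ ≤ C * r ∧
      ε < lam (tf z r) Eᶜ := fun n => hcon _ Nat.one_div_pos_of_nat
  choose z r hr hr1 hz hlam using hsel
  have hrt : Tendsto r atTop (𝓝 0) :=
    squeeze_zero (fun n => (hr n).le) (fun n => (hr1 n).le)
      tendsto_one_div_add_atTop_nhds_zero_nat
  have hδ : Tendsto (fun n => (R : ℝ) * r n) atTop (𝓝[>] 0) := by
    rw [tendsto_nhdsWithin_iff]
    constructor
    · have := hrt.const_mul (R : ℝ)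
      rwa [mul_zero] at this
    · exact Eventually.of_forall fun n => mul_pos hR0' (hr n)
  have hmem : ∀ᶠ n in atTop, a ∈ Metric.closedBall (z n) ((K : ℝ) * ((R : ℝ) * r n)) := by
    refine Eventually.of_forall fun n => ?_
    rw [Metric.mem_closedBall, dist_comm, dist_eq_norm]
    refine (hz n).trans ?_
    have hK0 : (0 : ℝ) ≤ K := Nat.cast_nonneg K
    calc C * r n ≤ K * r n := mul_le_mul_of_nonneg_right hK (hr n).le
      _ = K * (1 * r n) := by ring
      _ ≤ K * (R * r n) := by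
          gcongr
          exact (hr n).le
  have hlim := ha K z (fun n => (R : ℝ) * r n) hδ hmem
  obtain ⟨n, hn⟩ := (hlim.eventually (lt_mem_nhds ht1)).exists
  exact absurd (key (z n) (r n) (hr n) hn) (not_le.2 (hlam n))

end Pool.Agent.H81.NS
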