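import Pool.Agent.H81.NS.Prob

/-!
Harnack inequalities for the visual measures (problem MP_90715c_gt, NoSeparation).
-/

open Matrix Set Filter Topology MeasureTheory

namespace Pool.Agent.H81.NS

open Pool.Agent.H90.WC Pool.Agent.H81.TG

namespace Har

/-- The distance from the identity. -/
noncomputable def dd (d : G) : ℝ :=
  ‖d 0 0 - 1‖ + ‖d 0 1‖ + (‖d 1 0‖ + ‖d 1 1 - 1‖)

lemma dd_nonneg (d : G) : 0 ≤ dd d := by
  unfold dd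
  positivity

lemma continuous_dd : Continuous dd := by
  unfold dd
  exact ((((continuous_entry 0 0).sub continuous_const).norm).add
    (continuous_entry 0 1).norm).add
      ((continuous_entry 1 0).norm.add ((continuous_entry 1 1).sub continuous_const).norm)

lemma dd_one : dd 1 = 0 := by
  unfold dd
  simp

/-- The real inequality behind the norm bound. -/
lemma real_aux {p q A B a b x y : ℝ} (hA : 0 ≤ A) (hB : 0 ≤ B)
    (ha : 0 ≤ a) (hb : 0 ≤ b) (hx : 0 ≤ x) (hy : 0 ≤ y)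
    (hAa : A ≤ a * Real.sqrt (p ^ 2 + q ^ 2)) (hBb : B ≤ b * Real.sqrt (p ^ 2 + q ^ 2))
    (hxp : x ≤ p + A) (hyq : y ≤ q + B) :
    x ^ 2 + y ^ 2 ≤ (1 + (a + b)) ^ 2 * (p ^ 2 + q ^ 2) := by
  set s := Real.sqrt (p ^ 2 + q ^ 2) with hs
  have hs0 : 0 ≤ s := Real.sqrt_nonneg _
  have hs2 : s ^ 2 = p ^ 2 + q ^ 2 := Real.sq_sqrt (by positivity)
  have hps : p ≤ s := Real.le_sqrt_of_sq_le (by nlinarith)
  have hqs : q ≤ s := Real.le_sqrt_of_sq_le (by nlinarith)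
  have h1 : x ^ 2 ≤ (p + A) ^ 2 := pow_le_pow_left₀ hx hxp 2
  have h2 : y ^ 2 ≤ (q + B) ^ 2 := pow_le_pow_left₀ hy hyq 2
  have h3 : p * A ≤ s * (a * s) := mul_le_mul hps hAa hA hs0
  have h4 : q * B ≤ s * (b * s) := mul_le_mul hqs hBb hB hs0
  have h5 : A ^ 2 ≤ (a * s) ^ 2 := pow_le_pow_left₀ hA hAa 2
  have h6 : B ^ 2 ≤ (b * s) ^ 2 := pow_le_pow_left₀ hB hBb 2
  have h7 : 0 ≤ (a * s) * (b * s) := by positivity
  rw [← hs2]
  nlinarith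

lemma lin_aux {p q e f : ℝ} (he : 0 ≤ e) (hf : 0 ≤ f) :
    e * p + f * q ≤ (e + f) * Real.sqrt (p ^ 2 + q ^ 2) := by
  have hps : p ≤ Real.sqrt (p ^ 2 + q ^ 2) := Real.le_sqrt_of_sq_le (by nlinarith)
  have hqs : q ≤ Real.sqrt (p ^ 2 + q ^ 2) := Real.le_sqrt_of_sq_le (by nlinarith)
  have h1 := mul_le_mul_of_nonneg_left hps he
  have h2 := mul_le_mul_of_nonneg_left hqs hf
  linarith

/-- The norm bound. -/
lemma qf_bound (d : G) (z : ℂ) : ‖z‖ ^ 2 + 1 ≤ (1 + dd d) ^ 2 * qf d⁻¹ z := by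
  have hdet := det_eq d
  set u := d⁻¹ 0 0 * z + d⁻¹ 0 1 with hu
  set v := d⁻¹ 1 0 * z + d⁻¹ 1 1 with hv
  rw [inv_00, inv_01] at hu
  rw [inv_10, inv_11] at hv
  have hz : z = u + ((d 0 0 - 1) * u + d 0 1 * v) := by
    rw [hu, hv]
    linear_combination (-z) * hdet
  have h1 : (1 : ℂ) = v + (d 1 0 * u + (d 1 1 - 1) * v) := by
    rw [hu, hv]
    linear_combination (-1 : ℂ) * hdet
  have hq : qf d⁻¹ z = ‖u‖ ^ 2 + ‖v‖ ^ 2 := rfl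
  rw [hq]
  have hx : ‖z‖ ≤ ‖u‖ + (‖d 0 0 - 1‖ * ‖u‖ + ‖d 0 1‖ * ‖v‖) := by
    calc ‖z‖ = ‖u + ((d 0 0 - 1) * u + d 0 1 * v)‖ := by rw [← hz]
      _ ≤ ‖u‖ + ‖(d 0 0 - 1) * u + d 0 1 * v‖ := norm_add_le _ _
      _ ≤ ‖u‖ + (‖(d 0 0 - 1) * u‖ + ‖d 0 1 * v‖) := by gcongr; exact norm_add_le _ _
      _ = _ := by rw [norm_mul, norm_mul]
  have hy : (1 : ℝ) ≤ ‖v‖ + (‖d 1 0‖ * ‖u‖ + ‖d 1 1 - 1‖ * ‖v‖) := by
    calc (1 : ℝ) = ‖(1 : ℂ)‖ := by simp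
      _ = ‖v + (d 1 0 * u + (d 1 1 - 1) * v)‖ := by rw [← h1]
      _ ≤ ‖v‖ + ‖d 1 0 * u + (d 1 1 - 1) * v‖ := norm_add_le _ _
      _ ≤ ‖v‖ + (‖d 1 0 * u‖ + ‖(d 1 1 - 1) * v‖) := by gcongr; exact norm_add_le _ _
      _ = _ := by rw [norm_mul, norm_mul]
  have key := real_aux (p := ‖u‖) (q := ‖v‖) (A := ‖d 0 0 - 1‖ * ‖u‖ + ‖d 0 1‖ * ‖v‖)
    (B := ‖d 1 0‖ * ‖u‖ + ‖d 1 1 - 1‖ * ‖v‖) (a := ‖d 0 0 - 1‖ + ‖d 0 1‖)
    (b := ‖d 1 0‖ + ‖d 1 1 - 1‖) (x := ‖z‖) (y := 1)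
    (by positivity) (by positivity) (by positivity) (by positivity) (norm_nonneg _) zero_le_one
    (lin_aux (norm_nonneg _) (norm_nonneg _)) (lin_aux (norm_nonneg _) (norm_nonneg _)) hx hy
  rw [one_pow] at key
  exact key

lemma qf_one (z : ℂ) : qf (1 : G)⁻¹ z = ‖z‖ ^ 2 + 1 := by
  unfold qf
  rw [inv_one]
  simp

/-- The bound of the densities. -/
lemma dens_bound (d : G) (z : ℂ) :
    (qf d⁻¹ z ^ 2)⁻¹ ≤ (1 + dd d) ^ 4 * (qf (1 : G)⁻¹ z ^ 2)⁻¹ := by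
  have h := qf_bound d z
  rw [qf_one]
  have h0 : 0 < ‖z‖ ^ 2 + 1 := by positivity
  have h1 : 0 < 1 + dd d := by linarith [dd_nonneg d]
  have h2 : 0 < qf d⁻¹ z := by
    by_contra hc
    have := mul_nonpos_of_nonneg_of_nonpos (sq_nonneg (1 + dd d)) (not_lt.1 hc)
    linarith
  have h3 : (‖z‖ ^ 2 + 1) ^ 2 ≤ ((1 + dd d) ^ 2 * qf d⁻¹ z) ^ 2 := pow_le_pow_left₀ h0.le h 2
  have h4 : (1 + dd d) ^ 4 * ((‖z‖ ^ 2 + 1) ^ 2)⁻¹ * qf d⁻¹ z ^ 2 =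
      ((1 + dd d) ^ 2 * qf d⁻¹ z) ^ 2 * ((‖z‖ ^ 2 + 1) ^ 2)⁻¹ := by ring
  rw [inv_le_iff_one_le_mul₀ (by positivity), h4]
  calc (1 : ℝ) = (‖z‖ ^ 2 + 1) ^ 2 * ((‖z‖ ^ 2 + 1) ^ 2)⁻¹ :=
        (mul_inv_cancel₀ (pow_pos h0 2).ne').symm
    _ ≤ _ := mul_le_mul_of_nonneg_right h3 (by positivity)

lemma mu0_bound (hc : StCov) (d : G) {Y : Set (OnePoint ℂ)} (hY : MeasurableSet Y) :
    mu0 (act d ⁻¹' Y) ≤ ENNReal.ofReal ((1 + dd d) ^ 4) * mu0 Y := by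
  have h1 : mu0 Y = mu0 (act 1 ⁻¹' Y) := by
    congr 1
    ext x
    simp
  rw [h1, hc d Y hY, hc 1 Y hY, ← lintegral_const_mul' _ _ ENNReal.ofReal_ne_top]
  refine lintegral_mono fun z => ?_
  rw [← ENNReal.ofReal_mul (by positivity)]
  exact ENNReal.ofReal_le_ofReal (dens_bound d z)

lemma lam_bound (hc : StCov) (k d : G) {X : Set (OnePoint ℂ)} (hX : MeasurableSet X) :
    lam (k * d) X ≤ (1 + dd d) ^ 4 * lam k X := by
  have hY : MeasurableSet (act k ⁻¹' X) :=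
    (continuous_act k).measurable hX
  have hpre : act (k * d) ⁻¹' X = act d ⁻¹' (act k ⁻¹' X) := by
    ext x
    simp only [mem_preimage, act_mul]
  have h1 : mu (act (k * d) ⁻¹' X) ≤ ENNReal.ofReal ((1 + dd d) ^ 4) * mu (act k ⁻¹' X) := by
    unfold mu
    rw [Measure.smul_apply, Measure.smul_apply, smul_eq_mul, smul_eq_mul, hpre,
      mul_left_comm]
    gcongr
    exact mu0_bound hc d hY
  unfold lam
  have h2 := ENNReal.toReal_mono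
    (ENNReal.mul_ne_top ENNReal.ofReal_ne_top (measure_ne_top mu _)) h1
  rwa [ENNReal.toReal_mul, ENNReal.toReal_ofReal (by positivity)] at h2

end Har

open Har in
theorem har_of (hc : StCov) : ∀ D : Set G, IsCompact D → ∃ c : ℝ, 1 ≤ c ∧
    ∀ k, ∀ d ∈ D, ∀ X, MeasurableSet X → lam (k * d) X ≤ c * lam k X := by
  intro D hD
  obtain ⟨C, hC⟩ := hD.bddAbove_image continuous_dd.continuousOn
  have hC0 : 0 ≤ max C 0 := le_max_right _ _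
  refine ⟨(1 + max C 0) ^ 4, one_le_pow₀ (by linarith), fun k d hd X hX => ?_⟩
  refine (lam_bound hc k d hX).trans ?_
  have h1 : dd d ≤ max C 0 := (hC (mem_image_of_mem dd hd)).trans (le_max_left _ _)
  have h2 : (1 + dd d) ^ 4 ≤ (1 + max C 0) ^ 4 :=
    pow_le_pow_left₀ (by linarith [dd_nonneg d]) (by linarith) 4
  exact mul_le_mul_of_nonneg_right h2 ENNReal.toReal_nonneg

open Har in
theorem har1_of (hc : StCov) : ∀ η > (0 : ℝ), ∃ V ∈ 𝓝 (1 : G),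
    ∀ k, ∀ d ∈ V, ∀ X, MeasurableSet X → lam (k * d) X ≤ (1 + η) * lam k X := by
  intro η hη
  have hcont : Continuous fun d : G => (1 + dd d) ^ 4 := by
    exact (continuous_const.add continuous_dd).pow 4
  have h1 : Tendsto (fun d : G => (1 + dd d) ^ 4) (𝓝 1) (𝓝 1) := by
    have := hcont.tendsto 1
    simpa [dd_one] using this
  have h2 : ∀ᶠ d in 𝓝 (1 : G), (1 + dd d) ^ 4 < 1 + η :=
    h1.eventually (gt_mem_nhds (by linarith))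
  refine ⟨_, h2, fun k d hd X hX => ?_⟩
  exact (lam_bound hc k d hX).trans
    (mul_le_mul_of_nonneg_right (le_of_lt hd) ENNReal.toReal_nonneg)

end Pool.Agent.H81.NS
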