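import Pool.Agent.H81.NS.Prob
import Pool.Agent.H20.WC.Main

/-! Concentration of the visual measures at infinity. -/

open Matrix Set Filter Topology MeasureTheory

namespace Pool.Agent.H81.NS

open Pool.Agent.H90.WC Pool.Agent.H81.TG

/-- The sum of the norms of the entries. -/
noncomputable def sn (g : G) : ℝ := ‖g 0 0‖ + ‖g 0 1‖ + ‖g 1 0‖ + ‖g 1 1‖

lemma sn_inv (g : G) : sn g⁻¹ = sn g := by
  unfold sn
  rw [inv_00, inv_01, inv_10, inv_11, norm_neg, norm_neg]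
  ring

lemma le_sn (g : G) (i j : Fin 2) : ‖g i j‖ ≤ sn g := by
  have h1 := norm_nonneg (g 0 0)
  have h2 := norm_nonneg (g 0 1)
  have h3 := norm_nonneg (g 1 0)
  have h4 := norm_nonneg (g 1 1)
  unfold sn
  fin_cases i <;> fin_cases j <;> simp only [Fin.zero_eta, Fin.mk_one] <;> linarith

lemma sn_tendsto {F : Filter ℕ} {k : ℕ → G} (h : Tendsto k F (cocompact G)) :
    Tendsto (fun i => sn (k i)) F atTop := by
  rw [tendsto_atTop]
  intro R
  have hK : IsCompact (Set.pi univ fun _ : Fin 2 => Set.pi univ fun _ : Fin 2 =>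
      Metric.closedBall (0 : ℂ) R) :=
    isCompact_univ_pi fun _ => isCompact_univ_pi fun _ => isCompact_closedBall 0 R
  have hK' := (Matrix.SpecialLinearGroup.isClosedEmbedding_val
    (n := Fin 2) (R := ℂ)).isCompact_preimage hK
  filter_upwards [h hK'.compl_mem_cocompact] with i hi
  by_contra hlt
  push Not at hlt
  apply hi
  intro a _ b _
  rw [mem_closedBall_zero_iff]
  exact (le_sn (k i) a b).trans hlt.le

lemma ul_lim (F : Ultrafilter ℕ) {x : ℕ → ℂ} (h : ∀ i, ‖x i‖ ≤ 1) :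
    ∃ a, Tendsto x F (𝓝 a) := by
  have hx : x ⁻¹' Metric.closedBall (0 : ℂ) 1 ∈ (F : Filter ℕ) :=
    Filter.univ_mem' fun i => mem_closedBall_zero_iff.2 (h i)
  obtain ⟨a, -, ha⟩ := (isCompact_closedBall (0 : ℂ) 1).ultrafilter_le_nhds (F.map x) (by
    rw [le_principal_iff]
    exact hx)
  exact ⟨a, ha⟩

/-- The kernel of a matrix of rank one. -/
lemma inf_q {a b c d : ℂ} (hne : ¬ (a = 0 ∧ b = 0 ∧ c = 0 ∧ d = 0)) (hdet : a * d - b * c = 0) :
    ∃ q : OnePoint ℂ, ∀ E, IsClosed E → q ∉ E → ∃ m > (0 : ℝ), ∀ z : ℂ, (z : OnePoint ℂ) ∈ E →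
      m * (1 + ‖z‖) ≤ max ‖a * z + b‖ ‖c * z + d‖ := by
  by_cases hac : a = 0 ∧ c = 0
  · obtain ⟨rfl, rfl⟩ := hac
    have hbd : 0 < max ‖b‖ ‖d‖ := by
      rw [lt_max_iff, norm_pos_iff, norm_pos_iff]
      by_contra hc
      push Not at hc
      exact hne ⟨rfl, hc.1, rfl, hc.2⟩
    refine ⟨OnePoint.infty, fun E hE hq => ?_⟩
    have h1 : IsCompact (((↑) : ℂ → OnePoint ℂ) ⁻¹' Eᶜ)ᶜ :=
      ((OnePoint.isOpen_iff_of_mem' (mem_compl hq)).1 hE.isOpen_compl).1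
    obtain ⟨R, hR⟩ := h1.isBounded.exists_norm_le
    have hR' : ∀ z : ℂ, (z : OnePoint ℂ) ∈ E → ‖z‖ ≤ max R 0 := fun z hz =>
      (hR z (fun hc => hc hz)).trans (le_max_left _ _)
    have hR0 : 0 ≤ max R 0 := le_max_right _ _
    refine ⟨max ‖b‖ ‖d‖ / (1 + max R 0), by positivity, fun z hz => ?_⟩
    simp only [zero_mul, zero_add]
    rw [div_mul_eq_mul_div, div_le_iff₀ (by positivity)]
    have := hR' z hz
    exact mul_le_mul_of_nonneg_left (by linarith) hbd.le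
  · obtain ⟨z0, hb, hd⟩ : ∃ z0 : ℂ, b = -(a * z0) ∧ d = -(c * z0) := by
      by_cases ha : a = 0
      · have hc : c ≠ 0 := fun hc => hac ⟨ha, hc⟩
        refine ⟨-d / c, ?_, ?_⟩
        · rw [ha, zero_mul, zero_sub, neg_eq_zero] at hdet
          rcases mul_eq_zero.1 hdet with h | h
          · rw [h, ha]; ring
          · exact absurd h hc
        · field_simp
      · refine ⟨-b / a, ?_, ?_⟩
        · field_simp
        · field_simp
          linear_combination hdet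
    refine ⟨(z0 : OnePoint ℂ), fun E hE hq => ?_⟩
    have h1 : IsOpen (((↑) : ℂ → OnePoint ℂ) ⁻¹' Eᶜ) :=
      hE.isOpen_compl.preimage OnePoint.continuous_coe
    obtain ⟨ρ, hρ, hball⟩ := Metric.isOpen_iff.1 h1 z0 hq
    have hz : ∀ z : ℂ, (z : OnePoint ℂ) ∈ E → ρ ≤ ‖z - z0‖ := by
      intro z hz
      by_contra hc
      push Not at hc
      exact hball (by rw [Metric.mem_ball, dist_eq_norm]; exact hc) hz
    have hmax : 0 < max ‖a‖ ‖c‖ := by
      rw [lt_max_iff, norm_pos_iff, norm_pos_iff]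
      by_contra hc
      push Not at hc
      exact hac hc
    refine ⟨max ‖a‖ ‖c‖ / ((1 + ‖z0‖) / ρ + 1), by positivity, fun z hzE => ?_⟩
    have e1 : a * z + b = a * (z - z0) := by rw [hb]; ring
    have e2 : c * z + d = c * (z - z0) := by rw [hd]; ring
    have e3 : max ‖a * z + b‖ ‖c * z + d‖ = max ‖a‖ ‖c‖ * ‖z - z0‖ := by
      rw [e1, e2, norm_mul, norm_mul, max_mul_of_nonneg _ _ (norm_nonneg _)]
    rw [e3, div_mul_eq_mul_div, div_le_iff₀ (by positivity), mul_assoc]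
    refine mul_le_mul_of_nonneg_left ?_ hmax.le
    have h2 := hz z hzE
    have h3 : ‖z‖ ≤ ‖z - z0‖ + ‖z0‖ := by
      have := norm_add_le (z - z0) z0
      rwa [sub_add_cancel] at this
    have h4 : 1 + ‖z0‖ ≤ ‖z - z0‖ * ((1 + ‖z0‖) / ρ) := by
      rw [mul_div_assoc', le_div_iff₀ hρ, mul_comm]
      exact mul_le_mul_of_nonneg_right h2 (by positivity)
    linarith

/-- Lower bound for a normalised affine function. -/
lemma aff_lower {a b x y z : ℂ} {δ : ℝ} (hx : ‖x - a‖ ≤ δ) (hy : ‖y - b‖ ≤ δ) :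
    ‖a * z + b‖ - δ * (1 + ‖z‖) ≤ ‖x * z + y‖ := by
  have e : a * z + b = (x * z + y) - ((x - a) * z + (y - b)) := by ring
  have h1 : ‖a * z + b‖ ≤ ‖x * z + y‖ + ‖(x - a) * z + (y - b)‖ := by
    rw [e]
    exact norm_sub_le _ _
  have h2 : ‖(x - a) * z + (y - b)‖ ≤ ‖x - a‖ * ‖z‖ + ‖y - b‖ := by
    refine (norm_add_le _ _).trans ?_
    rw [norm_mul]
  have h3 : ‖x - a‖ * ‖z‖ ≤ δ * ‖z‖ := mul_le_mul_of_nonneg_right hx (norm_nonneg _)
  linarith

/-- The bound for the density of the visual measure. -/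
lemma qf_lower {h : G} {a b c d : ℂ} {M m : ℝ} (hM : 0 < M) (hm : 0 < m) {z : ℂ}
    (ha : ‖h 0 0 / M - a‖ ≤ m / 2) (hb : ‖h 0 1 / M - b‖ ≤ m / 2)
    (hc : ‖h 1 0 / M - c‖ ≤ m / 2) (hd : ‖h 1 1 / M - d‖ ≤ m / 2)
    (hz : m * (1 + ‖z‖) ≤ max ‖a * z + b‖ ‖c * z + d‖) :
    (qf h z ^ 2)⁻¹ ≤ ((M * (m / 2)) ^ 4)⁻¹ * den z := by
  have h1 := aff_lower (z := z) ha hb
  have h2 := aff_lower (z := z) hc hd
  have e1 : ‖h 0 0 / M * z + h 0 1 / M‖ = ‖h 0 0 * z + h 0 1‖ / M := by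
    rw [div_mul_eq_mul_div, ← add_div, norm_div, Complex.norm_real, Real.norm_eq_abs,
      abs_of_pos hM]
  have e2 : ‖h 1 0 / M * z + h 1 1 / M‖ = ‖h 1 0 * z + h 1 1‖ / M := by
    rw [div_mul_eq_mul_div, ← add_div, norm_div, Complex.norm_real, Real.norm_eq_abs,
      abs_of_pos hM]
  rw [e1] at h1
  rw [e2] at h2
  have hp : 0 < M * (m / 2) := by positivity
  have hkey : (M * (m / 2) * (1 + ‖z‖)) ^ 2 ≤ qf h z := by
    unfold qf
    have hA : 0 ≤ ‖h 0 0 * z + h 0 1‖ ^ 2 := sq_nonneg _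
    have hB : 0 ≤ ‖h 1 0 * z + h 1 1‖ ^ 2 := sq_nonneg _
    have h0 : 0 ≤ M * (m / 2) * (1 + ‖z‖) := by positivity
    rcases le_max_iff.1 hz with h3 | h3
    · have h4 : (m / 2) * (1 + ‖z‖) ≤ ‖h 0 0 * z + h 0 1‖ / M := by linarith
      rw [le_div_iff₀ hM] at h4
      have h5 : M * (m / 2) * (1 + ‖z‖) ≤ ‖h 0 0 * z + h 0 1‖ := by linarith
      have := pow_le_pow_left₀ h0 h5 2
      linarith
    · have h4 : (m / 2) * (1 + ‖z‖) ≤ ‖h 1 0 * z + h 1 1‖ / M := by linarith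
      rw [le_div_iff₀ hM] at h4
      have h5 : M * (m / 2) * (1 + ‖z‖) ≤ ‖h 1 0 * z + h 1 1‖ := by linarith
      have := pow_le_pow_left₀ h0 h5 2
      linarith
  have hkey2 : (M * (m / 2)) ^ 2 * (1 + ‖z‖ ^ 2) ≤ qf h z := by
    refine le_trans ?_ hkey
    rw [mul_pow (M * (m / 2)) (1 + ‖z‖) 2]
    have h8 : 1 + ‖z‖ ^ 2 ≤ (1 + ‖z‖) ^ 2 := by
      have := norm_nonneg z
      nlinarith
    exact mul_le_mul_of_nonneg_left h8 (sq_nonneg _)
  have hq0 : 0 < (M * (m / 2)) ^ 2 * (1 + ‖z‖ ^ 2) := by positivity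
  have h6 : ((M * (m / 2)) ^ 2 * (1 + ‖z‖ ^ 2)) ^ 2 ≤ qf h z ^ 2 :=
    pow_le_pow_left₀ hq0.le hkey2 2
  have h7 : (qf h z ^ 2)⁻¹ ≤ (((M * (m / 2)) ^ 2 * (1 + ‖z‖ ^ 2)) ^ 2)⁻¹ :=
    inv_anti₀ (by positivity) h6
  refine h7.trans (le_of_eq ?_)
  unfold den
  rw [mul_pow, ← pow_mul, mul_inv]

/-- Concentration at infinity. -/
theorem inf_of (hc : StCov) (h0 : mu0 univ ≠ 0) (h1 : mu0 univ ≠ ⊤) :
    ∀ (F : Ultrafilter ℕ) (k : ℕ → G), Tendsto k F (cocompact G) → ∃ q : OnePoint ℂ,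
      ∀ E, IsClosed E → q ∉ E → Tendsto (fun i => lam (k i) E) F (𝓝 0) := by
  intro F k hk
  have hM : Tendsto (fun i => sn (k i)) F atTop := sn_tendsto hk
  have hn : ∀ (a b : Fin 2) (i : ℕ), ‖(k i)⁻¹ a b / (sn (k i) : ℂ)‖ ≤ 1 := by
    intro a b i
    have h2 : 0 ≤ sn (k i) := (norm_nonneg _).trans (le_sn (k i) 0 0)
    rw [norm_div, Complex.norm_real, Real.norm_eq_abs, abs_of_nonneg h2]
    refine div_le_one_of_le₀ ?_ h2
    rw [← sn_inv]
    exact le_sn _ a b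
  obtain ⟨a, ha⟩ := ul_lim F (hn 0 0)
  obtain ⟨b, hb⟩ := ul_lim F (hn 0 1)
  obtain ⟨c, hcc⟩ := ul_lim F (hn 1 0)
  obtain ⟨d, hd⟩ := ul_lim F (hn 1 1)
  have hpos : ∀ᶠ i in (F : Filter ℕ), 0 < sn (k i) := hM.eventually (eventually_gt_atTop 0)
  have hsum : ‖a‖ + ‖b‖ + ‖c‖ + ‖d‖ = 1 := by
    have h2 := ((ha.norm.add hb.norm).add hcc.norm).add hd.norm
    refine tendsto_nhds_unique h2 ?_
    refine (tendsto_const_nhds (x := (1 : ℝ))).congr' ?_
    filter_upwards [hpos] with i hi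
    simp only [norm_div, Complex.norm_real, Real.norm_eq_abs, abs_of_pos hi]
    rw [← add_div, ← add_div, ← add_div, eq_comm, div_eq_one_iff_eq hi.ne', ← sn_inv]
    rfl
  have hdet : a * d - b * c = 0 := by
    have h2 := (ha.mul hd).sub (hb.mul hcc)
    refine tendsto_nhds_unique h2 ?_
    have h3 : Tendsto (fun i => (((sn (k i) ^ 2)⁻¹ : ℝ) : ℂ)) F (𝓝 ((0 : ℝ) : ℂ)) :=
      (Complex.continuous_ofReal.tendsto 0).comp
        (tendsto_inv_atTop_zero.comp ((tendsto_pow_atTop two_ne_zero).comp hM))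
    rw [Complex.ofReal_zero] at h3
    refine h3.congr' ?_
    filter_upwards [hpos] with i hi
    have hi' : (sn (k i) : ℂ) ≠ 0 := by exact_mod_cast hi.ne'
    have h4 := det_eq (k i)⁻¹
    push_cast
    field_simp
    exact h4.symm
  have hne : ¬ (a = 0 ∧ b = 0 ∧ c = 0 ∧ d = 0) := by
    rintro ⟨rfl, rfl, rfl, rfl⟩
    simp at hsum
  obtain ⟨q, hq⟩ := inf_q hne hdet
  refine ⟨q, fun E hE hqE => ?_⟩
  obtain ⟨m, hm, hmE⟩ := hq E hE hqE
  have hlim : Tendsto (fun i => ((sn (k i) * (m / 2)) ^ 4)⁻¹) F (𝓝 0) :=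
    tendsto_inv_atTop_zero.comp ((tendsto_pow_atTop (by norm_num)).comp
      (hM.atTop_mul_const (by positivity)))
  have hev : ∀ {x : ℕ → ℂ} {y : ℂ}, Tendsto x F (𝓝 y) → ∀ᶠ i in (F : Filter ℕ),
      ‖x i - y‖ ≤ m / 2 := by
    intro x y hxy
    have h2 := hxy.eventually (Metric.closedBall_mem_nhds y (half_pos hm))
    filter_upwards [h2] with i hi
    rw [← dist_eq_norm]
    exact hi
  refine squeeze_zero' (Eventually.of_forall fun i => ENNReal.toReal_nonneg) ?_ hlim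
  filter_upwards [hpos, hev ha, hev hb, hev hcc, hev hd] with i hi ia ib ic id
  have hmeas : MeasurableSet E := hE.measurableSet
  have hC : 0 ≤ ((sn (k i) * (m / 2)) ^ 4)⁻¹ := by positivity
  have hbound : mu0 (act (k i) ⁻¹' E) ≤
      ENNReal.ofReal (((sn (k i) * (m / 2)) ^ 4)⁻¹) * mu0 univ := by
    rw [hc (k i) E hmeas]
    calc ∫⁻ z in ((↑) : ℂ → OnePoint ℂ) ⁻¹' E, ENNReal.ofReal ((qf (k i)⁻¹ z ^ 2)⁻¹)
        ≤ ∫⁻ z in ((↑) : ℂ → OnePoint ℂ) ⁻¹' E,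
            ENNReal.ofReal (((sn (k i) * (m / 2)) ^ 4)⁻¹) * ENNReal.ofReal (den z) := by
          refine setLIntegral_mono' (measurable_coe hmeas) fun z hz => ?_
          rw [← ENNReal.ofReal_mul hC]
          exact ENNReal.ofReal_le_ofReal (qf_lower hi hm ia ib ic id (hmE z hz))
      _ = ENNReal.ofReal (((sn (k i) * (m / 2)) ^ 4)⁻¹) * mu0 E := by
          have hmd : Measurable fun z : ℂ => ENNReal.ofReal (den z) :=
            ENNReal.measurable_ofReal.comp continuous_den.measurable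
          rw [lintegral_const_mul _ hmd, mu0_apply hmeas]
      _ ≤ _ := mul_le_mul' le_rfl (measure_mono (subset_univ E))
  unfold lam mu
  rw [Measure.smul_apply, smul_eq_mul]
  have h5 : (mu0 univ)⁻¹ * mu0 (act (k i) ⁻¹' E) ≤
      ENNReal.ofReal (((sn (k i) * (m / 2)) ^ 4)⁻¹) := by
    calc (mu0 univ)⁻¹ * mu0 (act (k i) ⁻¹' E)
        ≤ (mu0 univ)⁻¹ * (ENNReal.ofReal (((sn (k i) * (m / 2)) ^ 4)⁻¹) * mu0 univ) :=
          mul_le_mul' le_rfl hbound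
      _ = ENNReal.ofReal (((sn (k i) * (m / 2)) ^ 4)⁻¹) := by
          rw [mul_comm, mul_assoc, ENNReal.mul_inv_cancel h0 h1, mul_one]
  exact ENNReal.toReal_le_of_le_ofReal hC h5

end Pool.Agent.H81.NS
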