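import Mathlib
import Pool.Agent.PK.Brw

/-!
Row NS-Brou of the project NS (problem MP_90715c_gt): the Brouwer lemma on the cube.
-/

set_option autoImplicit false

open Set Filter Topology

namespace Pool.Agent.H81.NS

theorem cube {T : Type*} (f g : (Fin 3 → ℝ) → ℝ) (hf : Continuous f) (hg : Continuous g) (c : (Fin 3 → ℝ) → T)
    (t0 : ∀ l : Fin 3 → ℝ, (∀ v, 0 ≤ l v ∧ l v ≤ 1) → l 2 = 0 → g l < 0)
    (t1 : ∀ l : Fin 3 → ℝ, (∀ v, 0 ≤ l v ∧ l v ≤ 1) → l 2 = 1 → f l = 0 → 0 < g l)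
    (s0 : ∀ l : Fin 3 → ℝ, (∀ v, 0 ≤ l v ∧ l v ≤ 1) → l 1 = 0 → g l < 0 ∨ 0 < f l)
    (s0' : ∀ l : Fin 3 → ℝ, (∀ v, 0 ≤ l v ∧ l v ≤ 1) → l 1 = 0 → l 2 = 1 → 0 < f l)
    (s1 : ∀ l : Fin 3 → ℝ, (∀ v, 0 ≤ l v ∧ l v ≤ 1) → l 1 = 1 → g l < 0 ∨ f l < 0)
    (s1' : ∀ l : Fin 3 → ℝ, (∀ v, 0 ≤ l v ∧ l v ≤ 1) → l 1 = 1 → l 2 = 1 → f l < 0)
    (loc : ∀ x : Fin 3 → ℝ, (∀ v, 0 ≤ x v ∧ x v ≤ 1) → f x = 0 → g x = 0 → ∃ N ∈ 𝓝 x, ∀ y ∈ N, (∀ v, 0 ≤ y v ∧ y v ≤ 1) → f y = 0 → g y = 0 → c y = c x)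
    (sep : ∀ x y : Fin 3 → ℝ, (∀ v, 0 ≤ x v ∧ x v ≤ 1) → (∀ v, 0 ≤ y v ∧ y v ≤ 1) → f x = 0 → g x = 0 → f y = 0 → g y = 0 → x 0 = 0 → y 0 = 1 → c x ≠ c y) : False := by
  set Z : Set (Fin 3 → ℝ) := {l | (∀ v, 0 ≤ l v ∧ l v ≤ 1) ∧ f l = 0 ∧ g l = 0} with hZ
  have hcube : IsClosed {l : Fin 3 → ℝ | ∀ v, 0 ≤ l v ∧ l v ≤ 1} := by
    have : {l : Fin 3 → ℝ | ∀ v, 0 ≤ l v ∧ l v ≤ 1} = ⋂ v, {l | 0 ≤ l v ∧ l v ≤ 1} := by
      ext l
      simp
    rw [this]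
    exact isClosed_iInter fun v => (isClosed_le continuous_const (continuous_apply v)).inter
      (isClosed_le (continuous_apply v) continuous_const)
  have hZc : IsClosed Z := hcube.inter ((isClosed_eq hf continuous_const).inter
    (isClosed_eq hg continuous_const))
  set Wp : Set (Fin 3 → ℝ) := {x | x ∈ Z ∧ ∃ x' ∈ Z, x' 0 = 0 ∧ c x' = c x} with hWp
  set Wm : Set (Fin 3 → ℝ) := Z \ Wp with hWm
  have hnear : ∀ x ∈ Z, ∃ N ∈ 𝓝 x, ∀ y ∈ N, y ∈ Z → c y = c x := by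
    intro x hx
    obtain ⟨N, hN, h⟩ := loc x hx.1 hx.2.1 hx.2.2
    exact ⟨N, hN, fun y hy hyZ => h y hy hyZ.1 hyZ.2.1 hyZ.2.2⟩
  have hWpc : IsClosed Wp := by
    refine isClosed_of_closure_subset fun x hx => ?_
    have hxZ : x ∈ Z := hZc.closure_subset_iff.2 (fun y hy => hy.1) hx
    obtain ⟨N, hN, h⟩ := hnear x hxZ
    obtain ⟨y, hyN, hy⟩ := mem_closure_iff_nhds.1 hx N hN
    obtain ⟨x', hx', h0, hc⟩ := hy.2
    exact ⟨hxZ, x', hx', h0, hc.trans (h y hyN hy.1)⟩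
  have hWmc : IsClosed Wm := by
    refine isClosed_of_closure_subset fun x hx => ?_
    have hxZ : x ∈ Z := hZc.closure_subset_iff.2 (fun y hy => hy.1) hx
    refine ⟨hxZ, fun hxp => ?_⟩
    obtain ⟨N, hN, h⟩ := hnear x hxZ
    obtain ⟨y, hyN, hy⟩ := mem_closure_iff_nhds.1 hx N hN
    obtain ⟨x', hx', h0, hc⟩ := hxp.2
    exact hy.2 ⟨hy.1, x', hx', h0, hc.trans (h y hyN hy.1).symm⟩
  obtain ⟨u, hu0, hu1, hu01⟩ := exists_continuous_zero_one_of_isClosed hWpc hWmc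
    (Set.disjoint_left.2 fun x hx hx' => hx'.2 hx)
  obtain ⟨l, hl, hle, hge⟩ := Pool.Agent.PK.brw (V := Fin 3)
    (fun l => ![1 - 2 * u l, f l, -g l]) (fun v => by
      fin_cases v
      · exact continuous_const.sub (continuous_const.mul u.continuous)
      · exact hf
      · exact hg.neg) 1 zero_le_one
  have hle0 : l 0 < 1 → 1 - 2 * u l ≤ 0 := hle 0
  have hle1 : l 1 < 1 → f l ≤ 0 := hle 1
  have hle2 : l 2 < 1 → -g l ≤ 0 := hle 2
  have hge0 : 0 < l 0 → 0 ≤ 1 - 2 * u l := hge 0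
  have hge1 : 0 < l 1 → 0 ≤ f l := hge 1
  have hge2 : 0 < l 2 → 0 ≤ -g l := hge 2
  have h2pos : 0 < l 2 := by
    rcases (hl 2).1.lt_or_eq with h | h
    · exact h
    · have h1 := t0 l hl h.symm
      have h2 := hle2 (by rw [← h]; norm_num)
      linarith
  have hg0 : g l ≤ 0 := by linarith [hge2 h2pos]
  have hg1 : l 2 < 1 → g l = 0 := fun h => le_antisymm hg0 (by linarith [hle2 h])
  have hf0 : f l = 0 := by
    rcases (hl 1).1.lt_or_eq with h | h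
    · rcases (hl 1).2.lt_or_eq with h' | h'
      · exact le_antisymm (hle1 h') (hge1 h)
      · have h3 := hge1 h
        rcases s1 l hl h' with h4 | h4
        · have h5 : l 2 = 1 := by
            by_contra hne
            have := hg1 (lt_of_le_of_ne (hl 2).2 hne)
            linarith
          have h6 := s1' l hl h' h5
          linarith
        · linarith
    · have h3 := hle1 (by rw [← h]; norm_num)
      rcases s0 l hl h.symm with h4 | h4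
      · have h5 : l 2 = 1 := by
          by_contra hne
          have := hg1 (lt_of_le_of_ne (hl 2).2 hne)
          linarith
        have h6 := s0' l hl h.symm h5
        linarith
      · linarith
  have h2lt : l 2 < 1 := by
    rcases (hl 2).2.lt_or_eq with h | h
    · exact h
    · have := t1 l hl h hf0
      linarith
  have hlZ : l ∈ Z := ⟨hl, hf0, hg1 h2lt⟩
  by_cases hp : l ∈ Wp
  · have hu : u l = 0 := hu0 hp
    have h1 : l 0 = 1 := by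
      by_contra hne
      have := hle0 (lt_of_le_of_ne (hl 0).2 hne)
      rw [hu] at this
      norm_num at this
    obtain ⟨x', hx', h0, hc⟩ := hp.2
    exact sep x' l hx'.1 hl hx'.2.1 hx'.2.2 hf0 (hg1 h2lt) h0 h1 hc
  · have hu : u l = 1 := hu1 ⟨hlZ, hp⟩
    have h1 : l 0 = 0 := by
      by_contra hne
      have := hge0 (lt_of_le_of_ne (hl 0).1 (Ne.symm hne))
      rw [hu] at this
      norm_num at this
    exact hp ⟨hlZ, l, hlZ, h1, rfl⟩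

end Pool.Agent.H81.NS
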