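import Pool.Agent.H81.TG.Disc
import Pool.Agent.H20.WC.ActCont

/-!
Definitions for the theorem that wandering continua do not separate the sphere
(problem MP_90715c_gt, NoSeparation).
-/

open Matrix Set Filter Topology MeasureTheory

namespace Pool.Agent.H81.NS

open Pool.Agent.H90.WC Pool.Agent.H81.TG

/-- The Riemann sphere. -/
abbrev S2 := OnePoint ℂ

noncomputable instance instMeasS2 : MeasurableSpace (OnePoint ℂ) := borel (OnePoint ℂ)

instance instBorelS2 : BorelSpace (OnePoint ℂ) := ⟨rfl⟩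

/-- The density of the spherical measure. -/
noncomputable def den (z : ℂ) : ℝ := ((1 + ‖z‖ ^ 2) ^ 2)⁻¹

/-- The spherical measure, not normalised. -/
noncomputable def mu0 : Measure (OnePoint ℂ) :=
  ((volume : Measure ℂ).withDensity fun z => ENNReal.ofReal (den z)).map ((↑) : ℂ → OnePoint ℂ)

/-- The spherical probability measure. -/
noncomputable def mu : Measure (OnePoint ℂ) := (mu0 univ)⁻¹ • mu0

/-- The visual measure seen from the frame `k`. -/
noncomputable def lam (k : G) (X : Set (OnePoint ℂ)) : ℝ := (mu (act k ⁻¹' X)).toReal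

/-- The translate `g X`. -/
def mv (g : G) (X : Set (OnePoint ℂ)) : Set (OnePoint ℂ) := act g⁻¹ ⁻¹' X

/-- Inclusion modulo null sets. -/
def Sub (X Y : Set (OnePoint ℂ)) : Prop := lam 1 (X \ Y) = 0

/-- The distance of two sets. -/
noncomputable def ds (X Y : Set (OnePoint ℂ)) : ℝ := lam 1 (symmDiff X Y)

/-- The frame `w ↦ r w + z`. -/
noncomputable def tf (z : ℂ) (r : ℝ) : G := if hr : 0 < r then fr z r hr else 1

/-- `‖h (z, 1)‖²`. -/
noncomputable def qf (h : G) (z : ℂ) : ℝ :=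
  ‖h 0 0 * z + h 0 1‖ ^ 2 + ‖h 1 0 * z + h 1 1‖ ^ 2

/-- The change of variables for the spherical measure. -/
def StCov : Prop := ∀ (g : G) (X : Set (OnePoint ℂ)), MeasurableSet X →
  mu0 (act g ⁻¹' X) =
    ∫⁻ z in ((↑) : ℂ → OnePoint ℂ) ⁻¹' X, ENNReal.ofReal ((qf g⁻¹ z ^ 2)⁻¹)

/-- A wandering continuum `K` and a complementary component `U` with connected complement. -/
structure Sep (Γ : Subgroup G) (K U : Set (OnePoint ℂ)) : Prop where
  hyp : Hyp Γ K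
  op : IsOpen U
  uconn : IsConnected U
  cconn : IsConnected Uᶜ
  frk : frontier U ⊆ K
  ci : (interior Uᶜ).Nonempty

/-- The walls. -/
def Wl (U : Set (OnePoint ℂ)) (f : G) (b : Bool) : Set (OnePoint ℂ) :=
  if b then mv f U else (mv f U)ᶜ

/-- The leaves: nontrivial limits of walls. -/
structure Lf (Γ : Subgroup G) (U X : Set (OnePoint ℂ)) : Prop where
  meas : MeasurableSet X
  pos : 0 < lam 1 X
  cpos : 0 < lam 1 Xᶜ
  lim : ∀ ε > (0 : ℝ), ∃ f ∈ Γ, ∃ b, ds X (Wl U f b) < ε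

/-- A minimal closed invariant family of leaves. -/
structure MinF (Γ : Subgroup G) (U : Set (OnePoint ℂ)) (M : Set (Set (OnePoint ℂ))) : Prop where
  leaf : ∀ X ∈ M, Lf Γ U X
  ne : M.Nonempty
  inv : ∀ X ∈ M, ∀ g ∈ Γ, mv g X ∈ M
  compl : ∀ X ∈ M, Xᶜ ∈ M
  closed : ∀ X, MeasurableSet X → 0 < lam 1 X → 0 < lam 1 Xᶜ →
    (∀ ε > (0 : ℝ), ∃ Y ∈ M, ds X Y < ε) → X ∈ M
  dense : ∀ X ∈ M, ∀ Y ∈ M, ∀ ε > (0 : ℝ), ∃ g ∈ Γ, ds (mv g X) Y < ε ∨ ds (mv g X)ᶜ Y < ε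

/-- The properties of the visual measures which are used. -/
structure Tool : Prop where
  /-- Harnack on compact sets. -/
  har : ∀ D : Set G, IsCompact D → ∃ c : ℝ, 1 ≤ c ∧
    ∀ k, ∀ d ∈ D, ∀ X, MeasurableSet X → lam (k * d) X ≤ c * lam k X
  /-- Harnack near the identity. -/
  har1 : ∀ η > (0 : ℝ), ∃ V ∈ 𝓝 (1 : G),
    ∀ k, ∀ d ∈ V, ∀ X, MeasurableSet X → lam (k * d) X ≤ (1 + η) * lam k X
  /-- Open sets have positive measure. -/
  pos : ∀ O : Set (OnePoint ℂ), IsOpen O → O.Nonempty → 0 < lam 1 O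
  /-- Concentration at infinity. -/
  inf : ∀ (F : Ultrafilter ℕ) (k : ℕ → G), Tendsto k F (cocompact G) → ∃ q : OnePoint ℂ,
    ∀ E, IsClosed E → q ∉ E → Tendsto (fun i => lam (k i) E) F (𝓝 0)
  /-- Density points. -/
  dens : ∀ E, MeasurableSet E → 0 < lam 1 E → ∃ a : ℂ, ∀ C ε : ℝ, 0 < C → 0 < ε → ∃ r₀ > (0 : ℝ),
    ∀ (z : ℂ) (r : ℝ), 0 < r → r < r₀ → ‖z - a‖ ≤ C * r → lam (tf z r) Eᶜ ≤ ε

end Pool.Agent.H81.NS
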