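import Pool.Agent.H81.NS.Defs

/-! The spherical measure is finite and nonzero. -/

open Matrix Set Filter Topology MeasureTheory

namespace Pool.Agent.H81.NS

open Pool.Agent.H90.WC Pool.Agent.H81.TG

lemma den_pos (z : ℂ) : 0 < den z := by
  unfold den; positivity

lemma continuous_den : Continuous den := by
  unfold den
  refine Continuous.inv₀ (by fun_prop) (fun z => by positivity)

lemma measurable_coe : Measurable ((↑) : ℂ → OnePoint ℂ) := OnePoint.continuous_coe.measurable

lemma mu0_apply {X : Set (OnePoint ℂ)} (hX : MeasurableSet X) :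
    mu0 X = ∫⁻ z in ((↑) : ℂ → OnePoint ℂ) ⁻¹' X, ENNReal.ofReal (den z) := by
  unfold mu0
  rw [Measure.map_apply measurable_coe hX, withDensity_apply _ (measurable_coe hX)]

theorem mu0_ne_top : mu0 univ ≠ ⊤ := by
  rw [mu0_apply MeasurableSet.univ, preimage_univ, Measure.restrict_univ]
  have h : Integrable (fun z : ℂ => ((1 : ℝ) + ‖z‖ ^ 2) ^ (-(4 : ℝ) / 2)) volume := by
    apply integrable_rpow_neg_one_add_norm_sq
    rw [Complex.finrank_real_complex]
    norm_num
  have h2 : Integrable den volume := by
    refine h.congr (Eventually.of_forall fun z => ?_)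
    simp only [den]
    have h0 : (0 : ℝ) ≤ 1 + ‖z‖ ^ 2 := by positivity
    have : (-(4 : ℝ) / 2) = -((2 : ℕ) : ℝ) := by norm_num
    rw [this, Real.rpow_neg h0, Real.rpow_natCast]
  have h3 := h2.2
  rw [hasFiniteIntegral_iff_ofReal (Eventually.of_forall fun z => (den_pos z).le)] at h3
  exact h3.ne

theorem mu0_ne_zero : mu0 univ ≠ 0 := by
  rw [mu0_apply MeasurableSet.univ, preimage_univ, Measure.restrict_univ]
  intro h
  rw [lintegral_eq_zero_iff (by
    exact ENNReal.measurable_ofReal.comp continuous_den.measurable)] at h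
  have : ∀ᵐ z : ℂ ∂volume, False := by
    filter_upwards [h] with z hz
    simp only [Pi.zero_apply, ENNReal.ofReal_eq_zero] at hz
    exact absurd (den_pos z) (not_lt.2 hz)
  rw [eventually_false_iff_eq_bot, ae_eq_bot] at this
  exact NeZero.ne _ this

instance : IsProbabilityMeasure mu := ⟨by
  unfold mu
  rw [Measure.smul_apply, smul_eq_mul, ENNReal.inv_mul_cancel mu0_ne_zero mu0_ne_top]⟩

end Pool.Agent.H81.NS
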